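import Pool.Agent.W787.PS.StmB

/-!
# Project PS: the Poincare inequality on a closed connected surface
-/

open MeasureTheory Set Metric Filter Topology
open scoped ContDiff

set_option linter.unusedSectionVars false

noncomputable section

namespace Pool.Agent.W696.PS

open Pool.Agent.W787.PS

/-- In a connected space the overlap graph of a cover by nonempty open sets is connected. -/
theorem chain {M : Type} [TopologicalSpace M] [ConnectedSpace M] {ι : Type} (U : ι → Set M)
    (hU : ∀ i, IsOpen (U i)) (hne : ∀ i, (U i).Nonempty) (hcov : ∀ x, ∃ i, x ∈ U i) (k l : ι) :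
    Relation.ReflTransGen (fun i j => (U i ∩ U j).Nonempty) k l := by
  by_contra hkl
  set R : ι → ι → Prop := fun i j => (U i ∩ U j).Nonempty with hR
  set A : Set M := ⋃ i, ⋃ (_ : Relation.ReflTransGen R k i), U i with hA
  set B : Set M := ⋃ i, ⋃ (_ : ¬ Relation.ReflTransGen R k i), U i with hB
  have hAo : IsOpen A := isOpen_iUnion fun i => isOpen_iUnion fun _ => hU i
  have hBo : IsOpen B := isOpen_iUnion fun i => isOpen_iUnion fun _ => hU i
  have hAB : A ∪ B = univ := by
    refine eq_univ_of_forall fun x => ?_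
    obtain ⟨i, hi⟩ := hcov x
    by_cases h : Relation.ReflTransGen R k i
    · exact Or.inl (mem_iUnion.2 ⟨i, mem_iUnion.2 ⟨h, hi⟩⟩)
    · exact Or.inr (mem_iUnion.2 ⟨i, mem_iUnion.2 ⟨h, hi⟩⟩)
  have hAn : A.Nonempty := by
    obtain ⟨x, hx⟩ := hne k
    exact ⟨x, mem_iUnion.2 ⟨k, mem_iUnion.2 ⟨Relation.ReflTransGen.refl, hx⟩⟩⟩
  have hBn : B.Nonempty := by
    obtain ⟨x, hx⟩ := hne l
    exact ⟨x, mem_iUnion.2 ⟨l, mem_iUnion.2 ⟨hkl, hx⟩⟩⟩
  obtain ⟨x, hxA, hxB⟩ := nonempty_inter hAo hBo hAB hAn hBn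
  simp only [hA, hB, mem_iUnion] at hxA hxB
  obtain ⟨i, hi, hxi⟩ := hxA
  obtain ⟨j, hj, hxj⟩ := hxB
  exact hj (hi.tail ⟨x, hxi, hxj⟩)

section

variable {M : Type} [TopologicalSpace M] [T2Space M] [CompactSpace M] [MeasurableSpace M]
  [BorelSpace M]

theorem prob (X : ClosedSurface M) : IsProbabilityMeasure X.vol := ⟨X.vol_univ⟩

theorem cint (X : ClosedSurface M) {f : M → ℝ} (hf : Continuous f) : Integrable f X.vol := by
  have := prob X
  exact hf.integrable_of_hasCompactSupport (HasCompactSupport.of_compactSpace f)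

theorem dir_nonneg (h3 : S_SMO) (X : ClosedSurface M) (u : M → ℝ) : 0 ≤ X.dir u u :=
  integral_nonneg fun x => (h3 M X).2.2.2.2.2.2.2.2.2.2.2.2.1 u x

/-- Local inequality on a disc. -/
theorem localIneq (h2 : S_POI) (h3 : S_SMO) (h4 : S_GIP) (X : ClosedSurface M) (κ : ℂ → M)
    (d : ℂ → ℝ) (hκ : IsDisc X κ d) :
    ∃ C : ℝ, 0 < C ∧ ∀ u, X.Smooth u →
      ∫ x in κ '' ball 0 1, (u x - avg (u ∘ κ) 0 1) ^ 2 ∂X.vol ≤ C * X.dir u u := by
  obtain ⟨C0, hC0, hP⟩ := h2
  obtain ⟨c, D, hc, hd⟩ := hκ.d_bd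
  have hsub : ball (0 : ℂ) 1 ⊆ ball 0 8 := ball_subset_ball (by norm_num)
  have hsubc : closedBall (0 : ℂ) 1 ⊆ ball 0 8 := closedBall_subset_ball (by norm_num)
  have hD : 0 < D := by
    have := hd 0 (by simp)
    linarith
  refine ⟨D * C0, by positivity, fun u hu => ?_⟩
  have hv : ContDiffOn ℝ ∞ (u ∘ κ) (ball 0 8) := hκ.smooth u hu
  have hvc : ContinuousOn (u ∘ κ) (closedBall 0 1) := hv.continuousOn.mono hsubc
  have hdc : ContinuousOn d (closedBall 0 1) := hκ.d_smooth.continuousOn.mono hsubc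
  have hgn : ∀ x, 0 ≤ X.gip u u x := (h3 M X).2.2.2.2.2.2.2.2.2.2.2.2.1 u
  have hgi : Integrable (X.gip u u) X.vol := cint X (h4 M X u u hu hu).1
  set a : ℝ := avg (u ∘ κ) 0 1 with ha
  have e1 := (hκ.intg (fun x => (u x - a) ^ 2) (ball 0 1) measurableSet_ball hsub).2
  have e2 := (hκ.intg (X.gip u u) (ball 0 1) measurableSet_ball hsub).2
  rw [e1]
  have hI1 : IntegrableOn (fun z => (u (κ z) - a) ^ 2 * d z) (ball 0 1) := by
    have : ContinuousOn (fun z => (u (κ z) - a) ^ 2 * d z) (closedBall 0 1) :=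
      ((hvc.sub continuousOn_const).pow 2).mul hdc
    exact (this.integrableOn_compact (isCompact_closedBall _ _)).mono_set ball_subset_closedBall
  have hI2 : IntegrableOn (fun z => D * (u (κ z) - a) ^ 2) (ball 0 1) := by
    have : ContinuousOn (fun z => D * (u (κ z) - a) ^ 2) (closedBall 0 1) :=
      continuousOn_const.mul ((hvc.sub continuousOn_const).pow 2)
    exact (this.integrableOn_compact (isCompact_closedBall _ _)).mono_set ball_subset_closedBall
  calc ∫ z in ball (0 : ℂ) 1, (u (κ z) - a) ^ 2 * d z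
      ≤ ∫ z in ball (0 : ℂ) 1, D * (u (κ z) - a) ^ 2 := by
        refine setIntegral_mono_on hI1 hI2 measurableSet_ball fun z hz => ?_
        have := (hd z (hsub hz)).2
        nlinarith [sq_nonneg (u (κ z) - a)]
    _ = D * ∫ z in ball (0 : ℂ) 1, (u (κ z) - a) ^ 2 := by rw [integral_const_mul]
    _ ≤ D * (C0 * 1 ^ 2 * ∫ z in ball (0 : ℂ) 1, nsq (u ∘ κ) z) := by
        refine mul_le_mul_of_nonneg_left ?_ hD.le
        exact hP (u ∘ κ) 0 1 8 one_pos (by norm_num) (hv.of_le (by exact_mod_cast le_top))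
    _ = D * C0 * ∫ z in ball (0 : ℂ) 1, X.gip u u (κ z) * d z := by
        have : ∫ z in ball (0 : ℂ) 1, nsq (u ∘ κ) z
            = ∫ z in ball (0 : ℂ) 1, X.gip u u (κ z) * d z := by
          refine setIntegral_congr_fun measurableSet_ball fun z hz => ?_
          show nsq (u ∘ κ) z = X.gip u u (κ z) * d z
          rw [hκ.gip u u hu hu z (hsub hz), nsq, gdot]
          ring
        rw [this]; ring
    _ = D * C0 * ∫ x in κ '' ball 0 1, X.gip u u x ∂X.vol := by rw [e2]
    _ ≤ D * C0 * X.dir u u := by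
        refine mul_le_mul_of_nonneg_left ?_ (by positivity)
        exact setIntegral_le_integral hgi (Eventually.of_forall hgn)

/-- The overlap of two discs has positive volume. -/
theorem overlap_pos (X : ClosedSurface M) (κ : ℂ → M)
    (d : ℂ → ℝ) (hκ : IsDisc X κ d) (V : Set M) (hV : IsOpen V)
    (hne : (κ '' ball 0 1 ∩ V).Nonempty) : 0 < X.vol.real (κ '' ball 0 1 ∩ V) := by
  have := prob X
  obtain ⟨c, D, hc, hd⟩ := hκ.d_bd
  have hsub : ball (0 : ℂ) 1 ⊆ ball 0 8 := ball_subset_ball (by norm_num)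
  set A : Set ℂ := ball 0 1 ∩ κ ⁻¹' V with hA
  have hAo : IsOpen A := (hκ.cont.mono hsub).isOpen_inter_preimage isOpen_ball hV
  have hAs : A ⊆ ball 0 8 := fun z hz => hsub hz.1
  have him : κ '' A = κ '' ball 0 1 ∩ V := by
    rw [hA, image_inter_preimage]
  have hAn : A.Nonempty := by
    rw [← him] at hne
    exact hne.of_image
  have e := (hκ.intg (fun _ => (1 : ℝ)) A hAo.measurableSet hAs)
  rw [← him]
  have hAfin : volume A ≠ ⊤ :=
    ((measure_mono (inter_subset_left)).trans_lt measure_ball_lt_top).ne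
  have hi : IntegrableOn (fun z => (1 : ℝ) * d z) A :=
    e.1.1 (integrable_const (1 : ℝ))
  have h1 : X.vol.real (κ '' A) = ∫ z in A, (1 : ℝ) * d z := by
    rw [← e.2]
    simp
  rw [h1]
  have h2 : c * volume.real A ≤ ∫ z in A, (1 : ℝ) * d z := by
    have : ∫ z in A, c = c * volume.real A := by
      rw [setIntegral_const, smul_eq_mul, mul_comm]
    rw [← this]
    refine setIntegral_mono_on (integrableOn_const hAfin) hi hAo.measurableSet fun z hz => ?_
    have := (hd z (hAs hz)).1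
    linarith
  have h3 : 0 < volume.real A := by
    rw [measureReal_def]
    exact ENNReal.toReal_pos (hAo.measure_pos volume hAn).ne' hAfin
  have : 0 < c * volume.real A := by positivity
  linarith

end

theorem poim (h1 : S_DISC) (h2 : S_POI) (h3 : S_SMO) (h4 : S_GIP) : S_POIM := by
  intro M _ _ _ _ _ _ X
  have := prob X
  choose K D hK hK0 hKb using fun x : M => h1 M X x 1 one_pos
  have hUo : ∀ x, IsOpen (K x '' ball 0 1) := fun x =>
    (hK x).isOpen _ isOpen_ball (ball_subset_ball (by norm_num))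
  have hxU : ∀ x, x ∈ K x '' ball 0 1 := fun x => ⟨0, by simp, hK0 x⟩
  obtain ⟨t, ht⟩ := isCompact_univ.elim_finite_subcover (fun x => K x '' ball 0 1) hUo
    (fun x _ => mem_iUnion.2 ⟨x, hxU x⟩)
  -- index type
  set U : t → Set M := fun k => K k '' ball 0 1 with hU
  have hcov : ∀ x, ∃ k : t, x ∈ U k := by
    intro x
    have := ht (mem_univ x)
    simp only [mem_iUnion] at this
    obtain ⟨k, hk, hx⟩ := this
    exact ⟨⟨k, hk⟩, hx⟩
  have hne : ∀ k : t, (U k).Nonempty := fun k => ⟨k, hxU k⟩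
  obtain ⟨k0⟩ : Nonempty t := by
    obtain ⟨x⟩ : Nonempty M := inferInstance
    obtain ⟨k, _⟩ := hcov x
    exact ⟨k⟩
  choose C hC hloc using fun k : t => localIneq h2 h3 h4 X (K k) (D k) (hK k)
  have hdn : ∀ u, 0 ≤ X.dir u u := fun u => dir_nonneg h3 X u
  have hUm : ∀ k : t, MeasurableSet (U k) := fun k => (hUo k).measurableSet
  -- edges
  have hedge : ∀ k l : t, (U k ∩ U l).Nonempty → ∃ E : ℝ, 0 ≤ E ∧ ∀ u, X.Smooth u →
      (avg (u ∘ K k) 0 1 - avg (u ∘ K l) 0 1) ^ 2 ≤ E * X.dir u u := by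
    intro k l hkl
    have hm : 0 < X.vol.real (U k ∩ U l) := overlap_pos X (K k) (D k) (hK k) (U l) (hUo l) hkl
    refine ⟨(2 * C k + 2 * C l) / X.vol.real (U k ∩ U l), ?_, fun u hu => ?_⟩
    · have := hC k; have := hC l; positivity
    have huc : Continuous u := (h3 M X).1 u hu
    set a := avg (u ∘ K k) 0 1
    set b := avg (u ∘ K l) 0 1
    have i1 : Integrable (fun x => (u x - a) ^ 2) X.vol :=
      cint X ((huc.sub continuous_const).pow 2)
    have i2 : Integrable (fun x => (u x - b) ^ 2) X.vol :=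
      cint X ((huc.sub continuous_const).pow 2)
    have hms : MeasurableSet (U k ∩ U l) := (hUm k).inter (hUm l)
    have q1 : ∫ x in U k ∩ U l, (u x - a) ^ 2 ∂X.vol ≤ C k * X.dir u u :=
      (setIntegral_mono_set i1.integrableOn (Eventually.of_forall fun x => sq_nonneg _)
        inter_subset_left.eventuallyLE).trans (hloc k u hu)
    have q2 : ∫ x in U k ∩ U l, (u x - b) ^ 2 ∂X.vol ≤ C l * X.dir u u :=
      (setIntegral_mono_set i2.integrableOn (Eventually.of_forall fun x => sq_nonneg _)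
        inter_subset_right.eventuallyLE).trans (hloc l u hu)
    have q3 : ∫ x in U k ∩ U l, (a - b) ^ 2 ∂X.vol
        ≤ ∫ x in U k ∩ U l, (2 * (u x - a) ^ 2 + 2 * (u x - b) ^ 2) ∂X.vol := by
      refine setIntegral_mono_on (integrable_const _).integrableOn
        ((i1.const_mul 2).add (i2.const_mul 2)).integrableOn hms fun x _ => ?_
      nlinarith [sq_nonneg ((u x - a) + (u x - b))]
    rw [setIntegral_const, smul_eq_mul, integral_add (i1.const_mul 2).integrableOn
      (i2.const_mul 2).integrableOn, integral_const_mul, integral_const_mul] at q3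
    rw [div_mul_eq_mul_div, le_div_iff₀ hm]
    nlinarith [q1, q2, q3]
  -- chains
  have hch : ∀ l : t, ∃ E : ℝ, 0 ≤ E ∧ ∀ u, X.Smooth u →
      (avg (u ∘ K k0) 0 1 - avg (u ∘ K l) 0 1) ^ 2 ≤ E * X.dir u u := by
    intro l
    have hr := chain U (fun k => hUo k) hne hcov k0 l
    induction hr with
    | refl => exact ⟨0, le_rfl, fun u _ => by simp⟩
    | tail _ hjl ih =>
      obtain ⟨E, hE, hEu⟩ := ih
      obtain ⟨F, hF, hFu⟩ := hedge _ _ hjl
      refine ⟨2 * E + 2 * F, by positivity, fun u hu => ?_⟩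
      have a1 := hEu u hu
      have a2 := hFu u hu
      rename_i j l' _
      nlinarith [sq_nonneg ((avg (u ∘ K k0) 0 1 - avg (u ∘ K j) 0 1)
        - (avg (u ∘ K j) 0 1 - avg (u ∘ K l') 0 1))]
  choose E hE hEu using hch
  refine ⟨∑ k : t, (2 * C k + 2 * E k) + 1, ?_, fun u hu => ?_⟩
  · have : 0 ≤ ∑ k : t, (2 * C k + 2 * E k) :=
      Finset.sum_nonneg fun k _ => by have := hC k; have := hE k; positivity
    linarith
  have huc : Continuous u := (h3 M X).1 u hu
  have hui : Integrable u X.vol := cint X huc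
  set a : ℝ := avg (u ∘ K k0) 0 1 with ha
  set m : ℝ := ∫ y, u y ∂X.vol with hmdef
  have i1 : Integrable (fun x => (u x - a) ^ 2) X.vol :=
    cint X ((huc.sub continuous_const).pow 2)
  have i2 : Integrable (fun x => (u x - m) ^ 2) X.vol :=
    cint X ((huc.sub continuous_const).pow 2)
  -- the mean minimises
  have s1 : ∫ x, (u x - m) ^ 2 ∂X.vol ≤ ∫ x, (u x - a) ^ 2 ∂X.vol := by
    have e : ∀ x, (u x - a) ^ 2 = (u x - m) ^ 2 + ((2 * (m - a)) * (u x - m) + (m - a) ^ 2) := by
      intro x; ring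
    have j1 : Integrable (fun x => (2 * (m - a)) * (u x - m)) X.vol :=
      cint X (continuous_const.mul (huc.sub continuous_const))
    have j2 : Integrable (fun x : M => (m - a) ^ 2) X.vol := integrable_const _
    have j3 : Integrable (fun x : M => m) X.vol := integrable_const _
    have : ∫ x, (u x - a) ^ 2 ∂X.vol = ∫ x, (u x - m) ^ 2 ∂X.vol + (m - a) ^ 2 := by
      have j12 : Integrable (fun x => (2 * (m - a)) * (u x - m) + (m - a) ^ 2) X.vol := j1.add j2
      simp_rw [e]
      rw [integral_add i2 j12, integral_add j1 j2, integral_const_mul,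
        integral_sub hui j3]
      simp [← hmdef]
    rw [this]
    nlinarith [sq_nonneg (m - a)]
  -- covering
  have s2 : ∫ x, (u x - a) ^ 2 ∂X.vol ≤ ∑ k : t, ∫ x in U k, (u x - a) ^ 2 ∂X.vol := by
    have : ∑ k : t, ∫ x in U k, (u x - a) ^ 2 ∂X.vol
        = ∫ x, ∑ k : t, (U k).indicator (fun x => (u x - a) ^ 2) x ∂X.vol := by
      rw [integral_finsetSum _ fun k _ => i1.indicator (hUm k)]
      refine Finset.sum_congr rfl fun k _ => ?_
      rw [integral_indicator (hUm k)]
    rw [this]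
    refine integral_mono i1 (integrable_finsetSum _ fun k _ => i1.indicator (hUm k)) fun x => ?_
    obtain ⟨k, hk⟩ := hcov x
    have h0 : ∀ j ∈ (Finset.univ : Finset t), 0 ≤ (U j).indicator (fun x => (u x - a) ^ 2) x :=
      fun j _ => indicator_nonneg (fun x _ => sq_nonneg _) x
    have := Finset.single_le_sum h0 (Finset.mem_univ k)
    rw [indicator_of_mem hk] at this
    exact this
  have s3 : ∀ k : t, ∫ x in U k, (u x - a) ^ 2 ∂X.vol ≤ (2 * C k + 2 * E k) * X.dir u u := by
    intro k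
    set b : ℝ := avg (u ∘ K k) 0 1 with hb
    have i3 : Integrable (fun x => (u x - b) ^ 2) X.vol :=
      cint X ((huc.sub continuous_const).pow 2)
    have i4 : Integrable (fun _ : M => 2 * (a - b) ^ 2) X.vol := integrable_const _
    have q1 : ∫ x in U k, (u x - a) ^ 2 ∂X.vol
        ≤ ∫ x in U k, (2 * (u x - b) ^ 2 + 2 * (a - b) ^ 2) ∂X.vol := by
      refine setIntegral_mono_on i1.integrableOn ((i3.const_mul 2).add i4).integrableOn (hUm k)
        fun x _ => ?_
      nlinarith [sq_nonneg ((u x - b) + (a - b))]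
    rw [integral_add (i3.const_mul 2).integrableOn i4.integrableOn, integral_const_mul,
      setIntegral_const, smul_eq_mul] at q1
    have q2 := hloc k u hu
    have q3 := hEu k u hu
    have q4 : X.vol.real (U k) ≤ 1 := measureReal_le_one
    have q5 : 0 ≤ X.vol.real (U k) := measureReal_nonneg
    have q6 : X.vol.real (U k) * (2 * (a - b) ^ 2) ≤ 1 * (2 * (a - b) ^ 2) :=
      mul_le_mul_of_nonneg_right q4 (by positivity)
    have q7 : ∫ x in U k, (u x - b) ^ 2 ∂X.vol ≤ C k * X.dir u u := q2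
    have q8 : (a - b) ^ 2 ≤ E k * X.dir u u := q3
    linarith
  calc ∫ x, (u x - m) ^ 2 ∂X.vol ≤ ∑ k : t, ∫ x in U k, (u x - a) ^ 2 ∂X.vol := s1.trans s2
    _ ≤ ∑ k : t, (2 * C k + 2 * E k) * X.dir u u := Finset.sum_le_sum fun k _ => s3 k
    _ = (∑ k : t, (2 * C k + 2 * E k)) * X.dir u u := by rw [Finset.sum_mul]
    _ ≤ (∑ k : t, (2 * C k + 2 * E k) + 1) * X.dir u u := by
        have := hdn u
        nlinarith

end Pool.Agent.W696.PS
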